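import Mathlib

/-!
Linear relations between roots of unity of `p`-power order and sums with fixed `p`-adic exponents.
-/

open Polynomial

namespace Pool.Agent.H707R3

variable {p : ℕ} [Fact p.Prime] {K : Type*} [Field K] [CharZero K]

/-- Linear relations with integer coefficients between the powers of a primitive
`p ^ (n + 1)`-th root of unity. -/
lemma relation_step {z : K} {n : ℕ} (hz : IsPrimitiveRoot z (p ^ (n + 1))) (a : ℕ → ℤ)
    (h : ∑ j ∈ Finset.range (p ^ (n + 1)), (a j : K) * z ^ j = 0) {j : ℕ}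
    (hj : j + p ^ n < p ^ (n + 1)) : a (j + p ^ n) = a j := by
  have hp : p.Prime := Fact.out
  have hpos : 0 < p ^ (n + 1) := pow_pos hp.pos _
  have hposn : 0 < p ^ n := pow_pos hp.pos _
  let P : ℤ[X] := ∑ j ∈ Finset.range (p ^ (n + 1)), C (a j) * X ^ j
  have hPc : ∀ k, P.coeff k = if k < p ^ (n + 1) then a k else 0 := by
    intro k
    simp only [P, finsetSum_coeff, coeff_C_mul, coeff_X_pow, mul_ite, mul_one, mul_zero]
    rw [Finset.sum_ite_eq]
    simp
  have hP0 : aeval z P = 0 := by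
    simp only [P, map_sum, map_mul, aeval_C, map_pow, aeval_X]
    exact h
  have hint : IsIntegral ℤ z := hz.isIntegral hpos
  have hdvd : cyclotomic (p ^ (n + 1)) ℤ ∣ P := by
    rw [cyclotomic_eq_minpoly hz hpos]
    exact minpoly.isIntegrallyClosed_dvd hint hP0
  obtain ⟨Q, hQ⟩ := hdvd
  have hgeom : cyclotomic (p ^ (n + 1)) ℤ * (X ^ p ^ n - 1) = X ^ p ^ (n + 1) - 1 :=
    cyclotomic_prime_pow_mul_X_pow_sub_one ℤ p n
  have hmain : P * (X ^ p ^ n - 1) = Q * (X ^ p ^ (n + 1) - 1) := by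
    rw [hQ, ← hgeom]
    ring
  have hm1 : (X ^ p ^ n - 1 : ℤ[X]).Monic := monic_X_pow_sub_C 1 hposn.ne'
  have hm2 : (X ^ p ^ (n + 1) - 1 : ℤ[X]).Monic := monic_X_pow_sub_C 1 hpos.ne'
  have hd1 : (X ^ p ^ n - 1 : ℤ[X]).natDegree = p ^ n := natDegree_X_pow_sub_C
  have hd2 : (X ^ p ^ (n + 1) - 1 : ℤ[X]).natDegree = p ^ (n + 1) := natDegree_X_pow_sub_C
  have hPdeg : P.natDegree < p ^ (n + 1) := by
    by_contra hcon
    push Not at hcon
    have hPne : P ≠ 0 := by
      rintro h0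
      rw [h0, natDegree_zero] at hcon
      omega
    have := hPc P.natDegree
    rw [if_neg (by omega)] at this
    exact hPne (leadingCoeff_eq_zero.1 this)
  have hQc : Q.coeff (j + p ^ n) = 0 := by
    by_cases hQ0 : Q = 0
    · simp [hQ0]
    apply coeff_eq_zero_of_natDegree_lt
    have hPne : P ≠ 0 := by
      rw [hQ]
      exact mul_ne_zero (cyclotomic_ne_zero _ _) hQ0
    have e := congrArg natDegree hmain
    rw [natDegree_mul hPne hm1.ne_zero, natDegree_mul hQ0 hm2.ne_zero, hd1, hd2] at e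
    omega
  have e := congrArg (fun R : ℤ[X] => R.coeff (j + p ^ n)) hmain
  simp only [mul_sub, mul_one, coeff_sub, coeff_mul_X_pow] at e
  rw [coeff_mul_X_pow', if_neg (by omega), hQc, hPc, hPc, if_pos (by omega), if_pos hj] at e
  linarith

lemma relation_mod {z : K} {n : ℕ} (hz : IsPrimitiveRoot z (p ^ (n + 1))) (a : ℕ → ℤ)
    (h : ∑ j ∈ Finset.range (p ^ (n + 1)), (a j : K) * z ^ j = 0) {j : ℕ}
    (hj : j < p ^ (n + 1)) : a j = a (j % p ^ n) := by
  have hp : p.Prime := Fact.out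
  have hposn : 0 < p ^ n := pow_pos hp.pos _
  induction j using Nat.strong_induction_on with
  | _ j ih =>
    by_cases hlt : j < p ^ n
    · rw [Nat.mod_eq_of_lt hlt]
    · push Not at hlt
      have e1 : j = (j - p ^ n) + p ^ n := by omega
      have h2 := ih (j - p ^ n) (by omega) (by omega)
      have h3 := relation_step hz a h (j := j - p ^ n) (by omega)
      rw [← e1] at h3
      rw [h3, h2, Nat.mod_eq_sub_mod hlt]

/-- Residue of a `p`-adic integer modulo `p ^ N`, as a natural number. -/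
noncomputable def res (N : ℕ) (b : ℤ_[p]) : ℕ := (PadicInt.toZModPow N b).val

lemma res_lt (N : ℕ) (b : ℤ_[p]) : res N b < p ^ N := by
  have : NeZero (p ^ N) := ⟨pow_ne_zero _ (Fact.out : p.Prime).ne_zero⟩
  exact ZMod.val_lt _

lemma res_mod {m N : ℕ} (h : m ≤ N) (b : ℤ_[p]) : res N b % p ^ m = res m b := by
  have : NeZero (p ^ N) := ⟨pow_ne_zero _ (Fact.out : p.Prime).ne_zero⟩
  have h1 := PadicInt.zmod_cast_comp_toZModPow (p := p) m N h
  have h2 : (PadicInt.toZModPow m b) =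
      (ZMod.castHom (pow_dvd_pow p h) (ZMod (p ^ m))) (PadicInt.toZModPow N b) := by
    rw [← h1]; rfl
  rw [res, res, h2, ZMod.castHom_apply, ← ZMod.natCast_val, ZMod.val_natCast]

/-- If a sum of powers of a root of unity with fixed `p`-adic exponents is invariant under
`z ↦ z ^ u`, then multiplication by `u` maps exponents to exponents. -/
lemma exists_of_invariant {z : K} {n : ℕ} (hz : IsPrimitiveRoot z (p ^ (n + 1)))
    (M : ℤ_[p] →₀ ℕ)
    (hdist : ∀ b ∈ M.support, ∀ b' ∈ M.support, res n b = res n b' → b = b')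
    {u : ℕ} (hu : Nat.Coprime u p)
    (h : ∑ b ∈ M.support, (M b : K) * (z ^ u) ^ res (n + 1) b =
      ∑ b ∈ M.support, (M b : K) * z ^ res (n + 1) b)
    {b₀ : ℤ_[p]} (hb₀ : b₀ ∈ M.support) :
    ∃ b' ∈ M.support, (u * res (n + 1) b₀) % p ^ (n + 1) = res (n + 1) b' := by
  classical
  have hp : p.Prime := Fact.out
  have hpos : 0 < p ^ (n + 1) := pow_pos hp.pos _
  have hposn : 0 < p ^ n := pow_pos hp.pos _
  have hlt : p ^ n < p ^ (n + 1) := Nat.pow_lt_pow_right hp.one_lt (Nat.lt_succ_self n)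
  set q := p ^ (n + 1) with hq
  by_contra hcon
  push Not at hcon
  let a : ℕ → ℤ := fun j => (∑ b ∈ M.support with res (n + 1) b = j, (M b : ℤ)) -
    ∑ b ∈ M.support with (u * res (n + 1) b) % q = j, (M b : ℤ)
  have ha : ∑ j ∈ Finset.range q, (a j : K) * z ^ j = 0 := by
    have h1 : ∑ j ∈ Finset.range q,
        ((∑ b ∈ M.support with res (n + 1) b = j, (M b : ℤ) : ℤ) : K) * z ^ j =
        ∑ b ∈ M.support, (M b : K) * z ^ res (n + 1) b := by
      rw [← Finset.sum_fiberwise_of_maps_to (g := fun b => res (n + 1) b) (t := Finset.range q)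
        (fun b _ => Finset.mem_range.2 (res_lt _ _))]
      refine Finset.sum_congr rfl fun j _ => ?_
      push_cast
      rw [Finset.sum_mul]
      refine Finset.sum_congr rfl fun b hb => ?_
      rw [(Finset.mem_filter.1 hb).2]
    have h2 : ∑ j ∈ Finset.range q,
        ((∑ b ∈ M.support with (u * res (n + 1) b) % q = j, (M b : ℤ) : ℤ) : K) * z ^ j =
        ∑ b ∈ M.support, (M b : K) * (z ^ u) ^ res (n + 1) b := by
      rw [← Finset.sum_fiberwise_of_maps_to (g := fun b => (u * res (n + 1) b) % q)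
        (t := Finset.range q) (fun b _ => Finset.mem_range.2 (Nat.mod_lt _ hpos))]
      refine Finset.sum_congr rfl fun j _ => ?_
      push_cast
      rw [Finset.sum_mul]
      refine Finset.sum_congr rfl fun b hb => ?_
      rw [← (Finset.mem_filter.1 hb).2, ← pow_mul]
      congr 1
      conv_rhs => rw [← Nat.div_add_mod (u * res (n + 1) b) q]
      rw [pow_add, pow_mul, hz.pow_eq_one, one_pow, one_mul]
    have h3 : ∑ j ∈ Finset.range q, (a j : K) * z ^ j =
        (∑ b ∈ M.support, (M b : K) * z ^ res (n + 1) b) -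
        ∑ b ∈ M.support, (M b : K) * (z ^ u) ^ res (n + 1) b := by
      rw [← h1, ← h2, ← Finset.sum_sub_distrib]
      refine Finset.sum_congr rfl fun j _ => ?_
      simp only [a]
      push_cast
      ring
    rw [h3, h, sub_self]
  set j₀ := (u * res (n + 1) b₀) % q with hj₀
  have hj₀lt : j₀ < q := Nat.mod_lt _ hpos
  have hfirst : ∑ b ∈ M.support with res (n + 1) b = j₀, (M b : ℤ) = 0 := by
    apply Finset.sum_eq_zero
    intro b hb
    rw [Finset.mem_filter] at hb
    exact absurd hb.2.symm (hcon b hb.1)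
  have hneg : a j₀ < 0 := by
    have hge : (M b₀ : ℤ) ≤ ∑ b ∈ M.support with (u * res (n + 1) b) % q = j₀, (M b : ℤ) :=
      Finset.single_le_sum (f := fun b => (M b : ℤ)) (fun b _ => Int.natCast_nonneg _)
        (Finset.mem_filter.2 ⟨hb₀, rfl⟩)
    have hpos0 : 0 < M b₀ := Nat.pos_of_ne_zero (Finsupp.mem_support_iff.1 hb₀)
    have hpos0' : (0 : ℤ) < M b₀ := by exact_mod_cast hpos0
    simp only [a]
    rw [hfirst]
    linarith
  set j₁ := (j₀ + p ^ n) % q with hj₁
  have hj₁lt : j₁ < q := Nat.mod_lt _ hpos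
  have hqn : p ^ n ∣ q := pow_dvd_pow p (Nat.le_succ n)
  have hmod : j₁ % p ^ n = j₀ % p ^ n := by
    rw [hj₁, Nat.mod_mod_of_dvd _ hqn, Nat.add_mod_right]
  have hneg1 : a j₁ < 0 := by
    rw [relation_mod hz a ha hj₁lt, hmod, ← relation_mod hz a ha hj₀lt]
    exact hneg
  have hex : ∃ b₁ ∈ M.support, (u * res (n + 1) b₁) % q = j₁ := by
    by_contra hno
    push Not at hno
    have h0 : ∑ b ∈ M.support with (u * res (n + 1) b) % q = j₁, (M b : ℤ) = 0 := by
      apply Finset.sum_eq_zero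
      intro b hb
      rw [Finset.mem_filter] at hb
      exact absurd hb.2 (hno b hb.1)
    have h1 : 0 ≤ ∑ b ∈ M.support with res (n + 1) b = j₁, (M b : ℤ) :=
      Finset.sum_nonneg fun _ _ => Int.natCast_nonneg _
    simp only [a] at hneg1
    rw [h0] at hneg1
    linarith
  obtain ⟨b₁, hb₁, hb₁j⟩ := hex
  have hcop : Nat.Coprime (p ^ n) u := (Nat.Coprime.pow_left n hu.symm)
  have hcong : u * res (n + 1) b₁ ≡ u * res (n + 1) b₀ [MOD p ^ n] := by
    have e1 : u * res (n + 1) b₁ % p ^ n = j₁ % p ^ n := by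
      rw [← hb₁j, Nat.mod_mod_of_dvd _ hqn]
    have e2 : u * res (n + 1) b₀ % p ^ n = j₀ % p ^ n := by
      rw [hj₀, Nat.mod_mod_of_dvd _ hqn]
    show u * res (n + 1) b₁ % p ^ n = u * res (n + 1) b₀ % p ^ n
    rw [e1, e2, hmod]
  have hcong2 : res (n + 1) b₁ ≡ res (n + 1) b₀ [MOD p ^ n] :=
    Nat.ModEq.cancel_left_of_coprime hcop hcong
  have hres : res n b₁ = res n b₀ := by
    rw [← res_mod (Nat.le_succ n) b₁, ← res_mod (Nat.le_succ n) b₀]
    exact hcong2
  have heq := hdist b₁ hb₁ b₀ hb₀ hres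
  rw [heq] at hb₁j
  -- `j₀ = j₁`, impossible
  have hj01 : j₀ = j₁ := hb₁j
  have : (j₀ + p ^ n) % q = j₀ := by rw [← hj₁, ← hj01]
  have hmm : j₀ + p ^ n ≡ j₀ + 0 [MOD q] := by
    show (j₀ + p ^ n) % q = (j₀ + 0) % q
    rw [this, add_zero, Nat.mod_eq_of_lt hj₀lt]
  have h0 : p ^ n ≡ 0 [MOD q] := Nat.ModEq.add_left_cancel' j₀ hmm
  have hdv : q ∣ p ^ n := (Nat.modEq_zero_iff_dvd).1 h0
  exact absurd (Nat.le_of_dvd hposn hdv) (by omega)

end Pool.Agent.H707R3
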