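import Mathlib
import Pool.Agent.KS6_3.ZL.H707R3.Comb
import Pool.Agent.KS6_3.ZL.H707R3.OneSubZeta

/-!
Degree bound for the extension generated by a root of unity over a field containing a sum with fixed
`p`-adic exponents, and the resulting lower bound for the ramification index.
-/

open Polynomial IntermediateField

namespace Pool.Agent.H707R3

variable {p : ℕ} [Fact p.Prime]

lemma card_mul_eq_le (N : ℕ) {b₀ : ℤ_[p]} (hb : b₀ ≠ 0) (c : ZMod (p ^ N))
    [Fintype (ZMod (p ^ N))] [DecidableEq (ZMod (p ^ N))] :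
    (Finset.univ.filter fun u : ZMod (p ^ N) => u * PadicInt.toZModPow N b₀ = c).card ≤
      p ^ b₀.valuation := by
  have hp : p.Prime := Fact.out
  set v := b₀.valuation with hv
  obtain ⟨w, hw⟩ : ∃ w : ℤ_[p]ˣ, b₀ = w * (p : ℤ_[p]) ^ v := ⟨_, PadicInt.unitCoeff_spec hb⟩
  let w' : (ZMod (p ^ N))ˣ := Units.map (PadicInt.toZModPow (p := p) N).toMonoidHom w
  have hw' : PadicInt.toZModPow N b₀ = w' * (p : ZMod (p ^ N)) ^ v := by
    conv_lhs => rw [hw]
    rw [map_mul, map_pow, map_natCast]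
    rfl
  have hker : (Finset.univ.filter fun d : ZMod (p ^ N) => (p ^ v) • d = 0).card ≤ p ^ v :=
    IsAddCyclic.card_nsmul_eq_zero_le (pow_pos hp.pos v)
  rcases (Finset.univ.filter fun u : ZMod (p ^ N) =>
    u * PadicInt.toZModPow N b₀ = c).eq_empty_or_nonempty with he | ⟨u₀, hu₀⟩
  · rw [he, Finset.card_empty]
    exact Nat.zero_le _
  · refine le_trans (Finset.card_le_card_of_injOn (fun u => u - u₀) ?_ ?_) hker
    · intro u hu
      simp only [Finset.coe_filter, Finset.mem_univ, true_and, Set.mem_ofPred_eq,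
        Finset.mem_filter] at hu hu₀ ⊢
      rw [← hu₀] at hu
      have h1 : (u - u₀) * PadicInt.toZModPow N b₀ = 0 := by rw [sub_mul, hu, sub_self]
      rw [hw', ← mul_assoc, mul_comm (u - u₀), mul_assoc] at h1
      have h2 : (u - u₀) * (p : ZMod (p ^ N)) ^ v = 0 := by
        have := congrArg (fun t => ((w'⁻¹ : (ZMod (p ^ N))ˣ) : ZMod (p ^ N)) * t) h1
        simpa using this
      rw [nsmul_eq_mul, mul_comm]
      push_cast
      exact h2
    · intro x _ y _ hxy
      simpa using hxy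

/-- The value of a formal sum with `p`-adic exponents at a root of unity of order `p ^ N`. -/
noncomputable def evSum (N : ℕ) (M : ℤ_[p] →₀ ℕ) (z : ℂ_[p]) : ℂ_[p] :=
  ∑ b ∈ M.support, (M b : ℂ_[p]) * z ^ res N b

/-- The degree of `K(z)/K` is bounded when `K` contains the value of a fixed formal sum. -/
lemma finrank_adjoin_le (K : IntermediateField ℚ_[p] ℂ_[p]) {z : ℂ_[p]} {n : ℕ}
    (hz : IsPrimitiveRoot z (p ^ (n + 1))) (M : ℤ_[p] →₀ ℕ)
    (hdist : ∀ b ∈ M.support, ∀ b' ∈ M.support, res n b = res n b' → b = b')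
    {b₀ : ℤ_[p]} (hb₀ : b₀ ∈ M.support) (hb₀' : b₀ ≠ 0) (hK : evSum (n + 1) M z ∈ K) :
    FiniteDimensional K K⟮z⟯ ∧
      Module.finrank K K⟮z⟯ ≤ M.support.card * p ^ b₀.valuation := by
  classical
  have hp : p.Prime := Fact.out
  have hpos : 0 < p ^ (n + 1) := pow_pos hp.pos _
  have hne : NeZero (p ^ (n + 1)) := ⟨hpos.ne'⟩
  have hint : IsIntegral K z := by
    refine ⟨X ^ p ^ (n + 1) - C 1, monic_X_pow_sub_C 1 hpos.ne', ?_⟩
    simp [hz.pow_eq_one]
  refine ⟨adjoin.finiteDimensional hint, ?_⟩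
  rw [adjoin.finrank hint]
  have hsep : (minpoly K z).Separable := (minpoly.irreducible hint).separable
  have hsplit : ((minpoly K z).map (algebraMap K ℂ_[p])).Splits := IsAlgClosed.splits _
  have hcard : (minpoly K z).natDegree = (((minpoly K z).aroots ℂ_[p]).toFinset).card := by
    rw [Multiset.toFinset_card_of_nodup (nodup_aroots_iff_of_splits (minpoly.ne_zero hint) hsplit
      |>.2 hsep), ← natDegree_map (algebraMap K ℂ_[p])]
    exact hsplit.natDegree_eq_card_roots
  rw [hcard]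
  let c : K := ⟨evSum (n + 1) M z, hK⟩
  let G : K[X] := ∑ b ∈ M.support, C ((M b : K)) * X ^ res (n + 1) b - C c
  have hG : aeval z G = 0 := by
    simp only [G, map_sub, map_sum, map_mul, aeval_C, map_pow, aeval_X, map_natCast]
    show evSum (n + 1) M z - evSum (n + 1) M z = 0
    exact sub_self _
  have hdvd1 : minpoly K z ∣ G := minpoly.dvd K z hG
  have hdvd2 : minpoly K z ∣ cyclotomic (p ^ (n + 1)) K := by
    apply minpoly.dvd
    rw [aeval_def, eval₂_eq_eval_map, map_cyclotomic]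
    exact (isRoot_cyclotomic_iff.2 hz)
  -- each root is a power of `z`
  have hroot : ∀ w ∈ ((minpoly K z).aroots ℂ_[p]).toFinset, ∃ u : ZMod (p ^ (n + 1)),
      z ^ u.val = w ∧ ∃ b' ∈ M.support, u * PadicInt.toZModPow (n + 1) b₀ =
        PadicInt.toZModPow (n + 1) b' := by
    intro w hw
    have hw0 : aeval w (minpoly K z) = 0 := by
      have h := isRoot_of_mem_roots (Multiset.mem_toFinset.1 hw)
      rwa [IsRoot.def, eval_map, ← aeval_def] at h
    have hwprim : IsPrimitiveRoot w (p ^ (n + 1)) := by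
      have : aeval w (cyclotomic (p ^ (n + 1)) K) = 0 := by
        obtain ⟨R, hR⟩ := hdvd2
        rw [hR, map_mul, hw0, zero_mul]
      rw [aeval_def, eval₂_eq_eval_map, map_cyclotomic] at this
      exact isRoot_cyclotomic_iff.1 this
    obtain ⟨i, hi, hcop, hiw⟩ := (hz.isPrimitiveRoot_iff (k := p ^ (n + 1))).1 hwprim
    have hGw : aeval w G = 0 := by
      obtain ⟨R, hR⟩ := hdvd1
      rw [hR, map_mul, hw0, zero_mul]
    have hev : ∑ b ∈ M.support, (M b : ℂ_[p]) * (z ^ i) ^ res (n + 1) b =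
        ∑ b ∈ M.support, (M b : ℂ_[p]) * z ^ res (n + 1) b := by
      simp only [G, map_sub, map_sum, map_mul, aeval_C, map_pow, aeval_X, map_natCast] at hGw
      rw [hiw]
      exact sub_eq_zero.1 hGw
    have hcop' : Nat.Coprime i p := Nat.Coprime.coprime_dvd_right (dvd_pow_self p (by omega)) hcop
    obtain ⟨b', hb', hbb⟩ := exists_of_invariant hz M hdist hcop' hev hb₀
    refine ⟨(i : ZMod (p ^ (n + 1))), ?_, b', hb', ?_⟩
    · rw [ZMod.val_natCast, Nat.mod_eq_of_lt hi, hiw]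
    · have e1 : (PadicInt.toZModPow (n + 1) b₀ : ZMod (p ^ (n + 1))) =
          ((res (n + 1) b₀ : ℕ) : ZMod (p ^ (n + 1))) := by
        rw [res, ZMod.natCast_val, ZMod.cast_id]
      have e2 : (PadicInt.toZModPow (n + 1) b' : ZMod (p ^ (n + 1))) =
          ((res (n + 1) b' : ℕ) : ZMod (p ^ (n + 1))) := by
        rw [res, ZMod.natCast_val, ZMod.cast_id]
      rw [e1, e2, ← hbb, ← Nat.cast_mul, ZMod.natCast_mod]
  choose! f hf1 hf2 using hroot
  have hle : (((minpoly K z).aroots ℂ_[p]).toFinset).card ≤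
      (M.support.biUnion fun b' => Finset.univ.filter fun u : ZMod (p ^ (n + 1)) =>
        u * PadicInt.toZModPow (n + 1) b₀ = PadicInt.toZModPow (n + 1) b').card := by
    refine Finset.card_le_card_of_injOn f ?_ ?_
    · intro w hw
      obtain ⟨b', hb', h⟩ := hf2 w hw
      simp only [Finset.coe_biUnion, Set.mem_iUnion]
      exact ⟨b', hb', by simp [h]⟩
    · intro w hw w' hw' heq
      rw [← hf1 w hw, ← hf1 w' hw', heq]
  refine hle.trans (Finset.card_biUnion_le_card_mul _ _ _ fun b' _ => ?_)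
  exact card_mul_eq_le (n + 1) hb₀' _

/-- Main estimate: a subfield of finite ramification index containing the value of a fixed formal
sum at a root of unity of order `p ^ (n + 1)` has large ramification index. -/
theorem ramIdx_ge (K : IntermediateField ℚ_[p] ℂ_[p]) (hK0 : ramIdx K ≠ 0) {z : ℂ_[p]} {n : ℕ}
    (hz : IsPrimitiveRoot z (p ^ (n + 1))) (M : ℤ_[p] →₀ ℕ)
    (hdist : ∀ b ∈ M.support, ∀ b' ∈ M.support, res n b = res n b' → b = b')
    {b₀ : ℤ_[p]} (hb₀ : b₀ ∈ M.support) (hb₀' : b₀ ≠ 0) (hK : evSum (n + 1) M z ∈ K) :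
    Nat.totient (p ^ (n + 1)) ≤ ramIdx K * (M.support.card * p ^ b₀.valuation) := by
  obtain ⟨hfd, hrank⟩ := finrank_adjoin_le K hz M hdist hb₀ hb₀' hK
  let L : IntermediateField ℚ_[p] ℂ_[p] := K⟮z⟯.restrictScalars ℚ_[p]
  have hKL : K ≤ L := by
    intro x hx
    show x ∈ K⟮z⟯
    exact K⟮z⟯.algebraMap_mem ⟨x, hx⟩
  have hzL : z ∈ L := mem_adjoin_simple_self K z
  obtain ⟨h1, h2⟩ := relIndex_le (depBound_of_finrank K⟮z⟯)
  have hmul : ramIdx K * (valGroup K).relIndex (valGroup L) = ramIdx L :=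
    Subgroup.relIndex_mul_relIndex _ _ _ (valGroup_mono bot_le) (valGroup_mono hKL)
  have hL0 : ramIdx L ≠ 0 := by
    rw [← hmul]
    exact mul_ne_zero hK0 h1
  have h3 := totient_le_ramIdx hz hzL hL0
  rw [← hmul] at h3
  exact h3.trans (Nat.mul_le_mul_left _ (h2.trans hrank))

end Pool.Agent.H707R3
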