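import Mathlib
import Pool.Agent.KS6_3.ZL.H707R3.DegBound

/-!
Euler products of power series whose local factors are attached to `p`-adic exponents.
-/

open PowerSeries

namespace Pool.Agent.H707R3

/-- The series `1 + x T ^ d + x ^ 2 T ^ (2 d) + …`. -/
noncomputable def geom {R : Type*} [Semiring R] (x : R) (d : ℕ) : PowerSeries R :=
  PowerSeries.mk fun j => if d ∣ j then x ^ (j / d) else 0

lemma coeff_geom {R : Type*} [Semiring R] (x : R) (d j : ℕ) :
    coeff j (geom x d) = if d ∣ j then x ^ (j / d) else 0 := coeff_mk _ _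

lemma coeff_zero_geom {R : Type*} [Semiring R] (x : R) (d : ℕ) : coeff 0 (geom x d) = 1 := by
  simp [coeff_geom]

lemma map_geom {R S : Type*} [Semiring R] [Semiring S] (φ : R →+* S) (x : R) (d : ℕ) :
    PowerSeries.map φ (geom x d) = geom (φ x) d := by
  ext j
  rw [coeff_map, coeff_geom, coeff_geom]
  split_ifs <;> simp

lemma one_sub_mul_geom {F : Type*} [Field F] (a : F) {d : ℕ} (hd : d ≠ 0) :
    (1 - C a * X ^ d) * geom a d = 1 := by
  ext j
  rw [sub_mul, one_mul, map_sub, mul_assoc, coeff_C_mul, coeff_X_pow_mul', coeff_geom, coeff_one]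
  by_cases hj : j = 0
  · subst hj
    have h1 : ¬ d ≤ 0 := by omega
    simp [h1]
  · rw [if_neg hj]
    by_cases hdj : d ∣ j
    · obtain ⟨m, rfl⟩ := hdj
      have hm : m ≠ 0 := by
        rintro rfl
        exact hj (mul_zero d)
      obtain ⟨m, rfl⟩ := Nat.exists_eq_succ_of_ne_zero hm
      have hle : d ≤ d * (m + 1) := Nat.le_mul_of_pos_right _ (Nat.succ_pos m)
      have e1 : d * (m + 1) - d = d * m := by
        rw [Nat.mul_succ, Nat.add_sub_cancel]
      have hdpos : 0 < d := Nat.pos_of_ne_zero hd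
      simp only [Nat.succ_eq_add_one]
      rw [if_pos (dvd_mul_right _ _), if_pos hle, e1, coeff_geom, if_pos (dvd_mul_right _ _),
        Nat.mul_div_cancel_left _ hdpos, Nat.mul_div_cancel_left _ hdpos, pow_succ]
      ring
    · rw [if_neg hdj]
      split_ifs with h
      · rw [coeff_geom, if_neg]
        · simp
        · intro h2
          apply hdj
          have := Nat.dvd_add h2 (dvd_refl d)
          rwa [Nat.sub_add_cancel h] at this
      · simp

lemma inv_eq_geom {F : Type*} [Field F] (a : F) {d : ℕ} (hd : d ≠ 0) :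
    (1 - C a * X ^ d)⁻¹ = geom a d := by
  have hc : constantCoeff (1 - C a * X ^ d : PowerSeries F) ≠ 0 := by
    simp [hd]
  symm
  rw [PowerSeries.eq_inv_iff_mul_eq_one hc, mul_comm]
  exact one_sub_mul_geom a hd

section positivity

variable {R : Type*} [CommSemiring R] (l : R →+ ℕ)

lemma le_coeff_mul (f g : PowerSeries R) (hg : coeff 0 g = 1) (k : ℕ) :
    l (coeff k f) ≤ l (coeff k (f * g)) := by
  rw [coeff_mul, map_sum]
  have h : l (coeff k f) = l (coeff (k, 0).1 f * coeff (k, 0).2 g) := by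
    simp only [hg, mul_one]
  rw [h]
  exact Finset.single_le_sum (f := fun q : ℕ × ℕ => l (coeff q.1 f * coeff q.2 g))
    (fun _ _ => Nat.zero_le _) (by simp)

lemma coeff_zero_prod {ι : Type*} (s : Finset ι) (f : ι → PowerSeries R)
    (h : ∀ i ∈ s, coeff 0 (f i) = 1) : coeff 0 (∏ i ∈ s, f i) = 1 := by
  simp only [coeff_zero_eq_constantCoeff_apply] at h ⊢
  rw [map_prod]
  exact Finset.prod_eq_one h

lemma le_coeff_prod {ι : Type*} [DecidableEq ι] (s : Finset ι) (f : ι → PowerSeries R)
    (h : ∀ i ∈ s, coeff 0 (f i) = 1) {v : ι} (hv : v ∈ s) (k : ℕ) :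
    l (coeff k (f v)) ≤ l (coeff k (∏ i ∈ s, f i)) := by
  rw [← Finset.mul_prod_erase s f hv]
  apply le_coeff_mul
  exact coeff_zero_prod _ _ fun i hi => h i (Finset.mem_of_mem_erase hi)

end positivity

section stable

variable {F : Type*} [CommRing F]

lemma coeff_prod_eq {ι : Type*} [DecidableEq ι] (f : ι → PowerSeries F) (k : ℕ) {s T : Finset ι}
    (hT : T ⊆ s) (h : ∀ i ∈ s \ T, (X : PowerSeries F) ^ (k + 1) ∣ f i - 1) :
    coeff k (∏ i ∈ s, f i) = coeff k (∏ i ∈ T, f i) := by
  let I : Ideal (PowerSeries F) := Ideal.span {(X : PowerSeries F) ^ (k + 1)}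
  have h1 : ∀ i ∈ s \ T, Ideal.Quotient.mk I (f i) = 1 := by
    intro i hi
    rw [← map_one (Ideal.Quotient.mk I), Ideal.Quotient.eq]
    exact Ideal.mem_span_singleton.2 (h i hi)
  have h2 : Ideal.Quotient.mk I (∏ i ∈ s, f i) = Ideal.Quotient.mk I (∏ i ∈ T, f i) := by
    rw [← Finset.prod_sdiff hT, map_mul, map_prod (Ideal.Quotient.mk I) _ (s \ T),
      Finset.prod_congr rfl h1, Finset.prod_const_one, one_mul]
  rw [Ideal.Quotient.eq, Ideal.mem_span_singleton, X_pow_dvd_iff] at h2
  have := h2 k (Nat.lt_succ_self k)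
  rw [map_sub, sub_eq_zero] at this
  exact this

lemma X_pow_dvd_geom_sub_one (x : F) {d k : ℕ} (hd : k < d) :
    (X : PowerSeries F) ^ (k + 1) ∣ geom x d - 1 := by
  rw [X_pow_dvd_iff]
  intro m hm
  rw [map_sub, coeff_geom, coeff_one]
  by_cases h0 : m = 0
  · simp [h0]
  · rw [if_neg h0, if_neg, sub_zero]
    intro h
    have := Nat.le_of_dvd (Nat.pos_of_ne_zero h0) h
    omega

end stable

open scoped PowerSeries.WithPiTopology

variable {p : ℕ} [Fact p.Prime]

/-- The coefficients of an Euler product with finitely many factors of each degree. -/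
lemma coeff_tprod_geom {ι : Type*} [DecidableEq ι] (a : ι → ℂ_[p]) (d : ι → ℕ)
    (hfin : ∀ k, {v | d v ≤ k}.Finite) (k : ℕ) :
    coeff k (∏' v, geom (a v) (d v)) = coeff k (∏ v ∈ (hfin k).toFinset, geom (a v) (d v)) := by
  let L : PowerSeries ℂ_[p] := PowerSeries.mk fun k =>
    coeff k (∏ v ∈ (hfin k).toFinset, geom (a v) (d v))
  have hL : HasProd (fun v => geom (a v) (d v)) L := by
    rw [HasProd, WithPiTopology.tendsto_iff_coeff_tendsto]
    intro k
    refine tendsto_const_nhds.congr' ?_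
    rw [SummationFilter.unconditional_filter]
    filter_upwards [Filter.eventually_ge_atTop (hfin k).toFinset] with s hs
    rw [coeff_mk]
    symm
    apply coeff_prod_eq _ _ hs
    intro i hi
    apply X_pow_dvd_geom_sub_one
    have := (Finset.mem_sdiff.1 hi).2
    simp only [Set.Finite.mem_toFinset, Set.mem_ofPred_eq] at this
    omega
  have : T2Space (PowerSeries ℂ_[p]) := WithPiTopology.instT2Space ℂ_[p]
  rw [hL.tprod_eq, coeff_mk]

end Pool.Agent.H707R3
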