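import Mathlib
import Pool.Agent.KS6_3.ZL.H707R3.Euler

/-!
The Stickelberger type element attached to an Euler product with `p`-adic exponents.
-/

open PowerSeries

namespace Pool.Agent.H707R3

variable {p : ℕ} [Fact p.Prime]

/-- Formal sums of `p`-adic exponents with natural number coefficients. -/
abbrev GA (p : ℕ) [Fact p.Prime] : Type := AddMonoidAlgebra ℕ ℤ_[p]

lemma pow_res_add {N : ℕ} {z : ℂ_[p]} (hz : z ^ p ^ N = 1) (b b' : ℤ_[p]) :
    z ^ res N (b + b') = z ^ res N b * z ^ res N b' := by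
  have hne : NeZero (p ^ N) := ⟨pow_ne_zero _ (Fact.out : p.Prime).ne_zero⟩
  rw [← pow_add, res, res, res, map_add, ZMod.val_add]
  conv_rhs => rw [← Nat.div_add_mod ((PadicInt.toZModPow N b).val + (PadicInt.toZModPow N b').val)
    (p ^ N)]
  rw [pow_add, pow_mul, hz, one_pow, one_mul]

/-- The character with value `z` at the topological generator `1` of `ℤ_[p]`. -/
noncomputable def chr {N : ℕ} {z : ℂ_[p]} (hz : z ^ p ^ N = 1) : Multiplicative ℤ_[p] →* ℂ_[p] where
  toFun b := z ^ res N b.toAdd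
  map_one' := by
    show z ^ res N (0 : ℤ_[p]) = 1
    simp [res]
  map_mul' b b' := pow_res_add hz _ _

/-- Evaluation of formal sums at a root of unity. -/
noncomputable def evHom {N : ℕ} {z : ℂ_[p]} (hz : z ^ p ^ N = 1) : GA p →+* ℂ_[p] :=
  AddMonoidAlgebra.liftNCRingHom (Nat.castRingHom ℂ_[p]) (chr hz) (fun _ _ => Commute.all _ _)

lemma evHom_single {N : ℕ} {z : ℂ_[p]} (hz : z ^ p ^ N = 1) (b : ℤ_[p]) (m : ℕ) :
    evHom hz (AddMonoidAlgebra.single b m) = m * z ^ res N b := by
  rw [evHom, AddMonoidAlgebra.liftNCRingHom_single]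
  rfl

lemma evHom_eq {N : ℕ} {z : ℂ_[p]} (hz : z ^ p ^ N = 1) (x : GA p) :
    evHom hz x = evSum N x.coeff z := by
  have key : ∀ x : GA p, evHom hz x = x.coeff.sum fun b m => (m : ℂ_[p]) * z ^ res N b := by
    intro x
    induction x using AddMonoidAlgebra.induction_linear with
    | zero => simp
    | add f g hf hg =>
      rw [map_add, hf, hg, AddMonoidAlgebra.coeff_add, Finsupp.sum_add_index']
      · intro b; simp
      · intro b m m'; push_cast; ring
    | single b m =>
      rw [evHom_single, AddMonoidAlgebra.coeff_single, Finsupp.sum_single_index]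
      simp
  rw [key]
  rfl

/-- The coefficient functional at an exponent. -/
noncomputable def cf (b : ℤ_[p]) : GA p →+ ℕ where
  toFun x := x.coeff b
  map_zero' := by simp
  map_add' x y := by simp

/-- The element of the group algebra giving the `k`-th coefficient of the Euler product over the
finite set `T`. -/
noncomputable def theta {ι : Type*} (ρ : ι → ℤ_[p]) (d : ι → ℕ) (T : Finset ι) (k : ℕ) : GA p :=
  coeff k (∏ v ∈ T, geom (AddMonoidAlgebra.single (ρ v) 1 : GA p) (d v))

lemma evHom_theta {ι : Type*} (ρ : ι → ℤ_[p]) (d : ι → ℕ) (T : Finset ι) (k : ℕ) {N : ℕ}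
    {z : ℂ_[p]} (hz : z ^ p ^ N = 1) :
    coeff k (∏ v ∈ T, geom (z ^ res N (ρ v)) (d v)) = evSum N (theta ρ d T k).coeff z := by
  rw [← evHom_eq hz, theta, ← coeff_map, map_prod (PowerSeries.map (evHom hz))]
  congr 1
  refine Finset.prod_congr rfl fun v _ => ?_
  rw [map_geom, evHom_single]
  simp

lemma mem_support_theta {ι : Type*} [DecidableEq ι] (ρ : ι → ℤ_[p]) (d : ι → ℕ) (T : Finset ι)
    {v : ι} (hv : v ∈ T) (hd : d v ≠ 0) : ρ v ∈ (theta ρ d T (d v)).coeff.support := by
  rw [Finsupp.mem_support_iff]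
  have h := le_coeff_prod (cf (ρ v)) T
    (fun v => geom (AddMonoidAlgebra.single (ρ v) 1 : GA p) (d v))
    (fun i _ => coeff_zero_geom _ _) hv (d v)
  have h1 : cf (ρ v) (coeff (d v) (geom (AddMonoidAlgebra.single (ρ v) 1 : GA p) (d v))) = 1 := by
    rw [coeff_geom, if_pos dvd_rfl, Nat.div_self (Nat.pos_of_ne_zero hd), pow_one]
    show (AddMonoidAlgebra.single (ρ v) 1 : GA p).coeff (ρ v) = 1
    simp
  rw [h1] at h
  have h2 : 1 ≤ (theta ρ d T (d v)).coeff (ρ v) := h
  omega

end Pool.Agent.H707R3
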