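import Mathlib

/-!
Function fields of curves over finite fields, their places, Frobenius elements, and `ℤ_p`-towers.
-/

namespace Pool.Agent.H707R3

section places

variable (k F : Type*) [Field k] [Field F] [Algebra k F]

/-- `F` is the function field of a smooth projective geometrically irreducible curve over the finite
field `k`: it is finitely generated over `k` of transcendence degree one, and `k` is algebraically
closed in `F`. -/
structure IsCurveFunctionField : Prop where
  essFiniteType : Algebra.EssFiniteType k F
  trdeg_eq_one : Algebra.trdeg k F = 1
  algClosed : ∀ a : F, IsAlgebraic k a → a ∈ (algebraMap k F).range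

/-- The places of `F/k`, that is, the closed points of the smooth projective curve with function
field `F`: the valuation rings of `F` containing `k` and different from `F`. -/
structure Place where
  ring : ValuationSubring F
  const_mem : ∀ a : k, algebraMap k F a ∈ ring
  ne_top : ring ≠ ⊤

end places

variable {k F : Type*} [Field k] [Field F] [Algebra k F]

/-- The residue field of a place. -/
abbrev Place.κ (v : Place k F) : Type _ := IsLocalRing.ResidueField v.ring

/-- The embedding of the constant field in the residue field of a place. -/
noncomputable def Place.resHom (v : Place k F) : k →+* v.κ :=
  (IsLocalRing.residue v.ring).comp ((algebraMap k F).codRestrict v.ring.toSubring v.const_mem)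

/-- The degree of a place: the degree of its residue field over the constant field. -/
noncomputable def Place.deg (v : Place k F) : ℕ :=
  letI : Algebra k v.κ := v.resHom.toAlgebra
  Module.finrank k v.κ

section extension

variable (E : Type*) [Field E] [Algebra F E]

/-- The place `v` of `F` is unramified in the Galois extension `E/F`: for every valuation ring `W` of
`E` above `v` the inertia group (the automorphisms acting trivially on `W` modulo the maximal ideal
of `W`) is trivial. -/
def Place.IsUnramified (v : Place k F) : Prop :=
  ∀ W : ValuationSubring E, W.comap (algebraMap F E) = v.ring →
    ∀ σ : E ≃ₐ[F] E, (∀ a ∈ W, W.valuation (σ a - a) < 1) → σ = 1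

variable {E}

/-- `σ` is an arithmetic Frobenius element of `v` in `E/F`: for some valuation ring `W` of `E` above
`v`, the automorphism `σ` acts on `W` modulo its maximal ideal by raising to the power given by the
number of elements of the residue field of `v`. -/
def Place.IsFrob (v : Place k F) (σ : E ≃ₐ[F] E) : Prop :=
  ∃ W : ValuationSubring E, W.comap (algebraMap F E) = v.ring ∧
    ∀ a ∈ W, W.valuation (σ a - a ^ Nat.card v.κ) < 1

variable (E)

/-- The arithmetic Frobenius element of `v` in the Galois group of `E/F` (well defined when `E/F` is
abelian and `v` is unramified in `E`). -/
noncomputable def Place.frob (v : Place k F) : E ≃ₐ[F] E :=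
  Classical.epsilon fun σ : E ≃ₐ[F] E => v.IsFrob σ

variable (k F)

/-- A `ℤ_p`-tower of curves over the finite field `k`, given by its function fields: `F` is the
function field of the base curve `X`, `E` is the union of the function fields of all layers, `E/F` is
Galois with group topologically isomorphic to `ℤ_p`, the field `k` is algebraically closed in `E` (so
that every layer is geometrically irreducible), and only finitely many places of `F` ramify. -/
structure IsZpTower (p : ℕ) [Fact p.Prime] [Algebra k E] : Prop where
  base : IsCurveFunctionField k F
  galois : IsGalois F E
  group : Nonempty ((E ≃ₐ[F] E) ≃ₜ* Multiplicative ℤ_[p])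
  algClosed : ∀ a : E, IsAlgebraic k a → a ∈ (algebraMap k E).range
  finite_ramified : {v : Place k F | ¬ v.IsUnramified E}.Finite

end extension

end Pool.Agent.H707R3
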