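import Mathlib
import Pool.Agent.KS6_3.ZL.H707R3.Places

/-!
Existence of Dedekind models, and the places of a function field over a finite field: every degree is
positive, finitely many places of bounded degree, infinitely many places.
-/

open IntermediateField IsDedekindDomain

namespace Pool.Agent.H707R3

variable {k F : Type*} [Field k] [Field F] [Algebra k F]

open scoped IntermediateField.algebraAdjoinAdjoin

/-- The integral closure of `k[t]` in `F` as a Dedekind model. -/
lemma exists_dedModel (t : F) (ht : Transcendental k t) [FiniteDimensional k⟮t⟯ F]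
    [Algebra.IsSeparable k⟮t⟯ F] :
    ∃ D : DedModel k F, ∀ v : Place k F, t ∈ v.ring → ∀ b ∈ D.B, b ∈ v.ring := by
  let A₀ : Subalgebra k F := Algebra.adjoin k {t}
  have hpir : IsPrincipalIdealRing A₀ :=
    IsPrincipalIdealRing.of_surjective (Polynomial.algEquivOfTranscendental k t ht).toRingEquiv.toRingHom
      (Polynomial.algEquivOfTranscendental k t ht).surjective
  have hdedA : IsDedekindDomain A₀ := inferInstance
  have hded : IsDedekindDomain (integralClosure A₀ F) :=
    integralClosure.isDedekindDomain A₀ k⟮t⟯ F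
  have hfrac : IsFractionRing (integralClosure A₀ F) F :=
    integralClosure.isFractionRing_of_finite_extension k⟮t⟯ F
  have hfin : Module.Finite A₀ (integralClosure A₀ F) :=
    IsIntegralClosure.finite A₀ k⟮t⟯ F (integralClosure A₀ F)
  have hftA : Algebra.FiniteType k A₀ :=
    (Subalgebra.fg_iff_finiteType _).1 ⟨{t}, by simp [A₀]⟩
  have hft : Algebra.FiniteType k (integralClosure A₀ F) :=
    Algebra.FiniteType.trans hftA inferInstance
  let B : Subalgebra k F := (integralClosure A₀ F).restrictScalars k
  refine ⟨⟨B, hded, hfrac, hft⟩, ?_⟩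
  intro v htv b hb
  have hA₀ : ∀ a ∈ A₀, a ∈ v.ring := by
    intro a ha
    induction ha using Algebra.adjoin_induction with
    | mem x hx =>
      rw [Set.mem_singleton_iff] at hx
      rw [hx]
      exact htv
    | algebraMap r => exact v.const_mem r
    | add x y _ _ hx hy => exact v.ring.add_mem _ _ hx hy
    | mul x y _ _ hx hy => exact v.ring.mul_mem _ _ hx hy
  have hbint : IsIntegral A₀ b := hb
  let φ : A₀ →+* v.ring := (A₀.toSubring.subtype).codRestrict v.ring.toSubring fun a => hA₀ a a.2
  obtain ⟨f, hf, hf0⟩ := hbint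
  have hint : IsIntegral v.ring b := by
    refine ⟨f.map φ, hf.map φ, ?_⟩
    rw [Polynomial.eval₂_map]
    exact hf0
  obtain ⟨y, hy⟩ := (IsIntegrallyClosed.isIntegral_iff (R := v.ring) (K := F)).1 hint
  rw [← hy]
  exact y.2

/-- Existence of a separating element. -/
lemma exists_separating [PerfectField k] (h : IsCurveFunctionField k F) :
    ∃ t : F, Transcendental k t ∧ FiniteDimensional k⟮t⟯ F ∧ Algebra.IsSeparable k⟮t⟯ F := by
  have := h.essFiniteType
  obtain ⟨s, hs, hsep⟩ := exists_isTranscendenceBasis_and_isSeparable_of_perfectField k F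
  have hcard : s.card = 1 := by
    have h1 := hs.cardinalMk_eq_trdeg
    rw [h.trdeg_eq_one, Cardinal.mk_coe_finset] at h1
    exact_mod_cast h1
  obtain ⟨t, rfl⟩ := Finset.card_eq_one.1 hcard
  have ht : Transcendental k t := hs.1.transcendental ⟨t, by simp⟩
  rw [Finset.coe_singleton] at hsep
  refine ⟨t, ht, ?_, hsep⟩
  have : Algebra.EssFiniteType k⟮t⟯ F := Algebra.EssFiniteType.of_comp k k⟮t⟯ F
  exact Algebra.finite_of_essFiniteType_of_isAlgebraic

lemma adjoin_inv_eq (t : F) : k⟮t⁻¹⟯ = k⟮t⟯ := by
  apply le_antisymm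
  · rw [adjoin_simple_le_iff]
    exact inv_mem (mem_adjoin_simple_self k t)
  · rw [adjoin_simple_le_iff]
    have h := inv_mem (mem_adjoin_simple_self k t⁻¹)
    rwa [inv_inv] at h

/-- There are two Dedekind models such that every place is centered on one of them. -/
lemma exists_two_models [PerfectField k] (h : IsCurveFunctionField k F) :
    ∃ (t : F) (D D' : DedModel k F), Transcendental k t ∧
      ∀ v : Place k F, (∀ b ∈ D.B, b ∈ v.ring) ∨ (∀ b ∈ D'.B, b ∈ v.ring) := by
  obtain ⟨t, ht, hfd, hsep⟩ := exists_separating h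
  obtain ⟨D, hD⟩ := exists_dedModel t ht
  have ht' : Transcendental k t⁻¹ := by
    intro hcon
    apply ht
    have := hcon.inv
    rwa [inv_inv] at this
  have hfd' : FiniteDimensional k⟮t⁻¹⟯ F := by
    rw [adjoin_inv_eq]
    exact hfd
  have hsep' : Algebra.IsSeparable k⟮t⁻¹⟯ F := by
    rw [adjoin_inv_eq]
    exact hsep
  obtain ⟨D', hD'⟩ := exists_dedModel t⁻¹ ht'
  refine ⟨t, D, D', ht, fun v => ?_⟩
  rcases v.ring.mem_or_inv_mem t with h1 | h1
  · exact Or.inl (hD v h1)
  · exact Or.inr (hD' v h1)

variable [Finite k]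

lemma card_residue' (h : IsCurveFunctionField k F) (v : Place k F) :
    Finite v.κ ∧ Nat.card v.κ = Nat.card k ^ v.deg ∧ v.deg ≠ 0 := by
  obtain ⟨t, D, D', _, hD⟩ := exists_two_models h
  rcases hD v with h1 | h1
  · exact card_residue v (D.finite_residue v h1)
  · exact card_residue v (D'.finite_residue v h1)

/-- Every place has positive degree. -/
theorem deg_ne_zero (h : IsCurveFunctionField k F) (v : Place k F) : v.deg ≠ 0 :=
  (card_residue' h v).2.2

/-- There are finitely many places of bounded degree. -/
theorem finite_deg_le (h : IsCurveFunctionField k F) (m : ℕ) :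
    {v : Place k F | v.deg ≤ m}.Finite := by
  obtain ⟨t, D, D', _, hD⟩ := exists_two_models h
  refine ((D.finite_deg_le m).union (D'.finite_deg_le m)).subset ?_
  intro v hv
  rcases hD v with h1 | h1
  · exact Or.inl ⟨h1, hv⟩
  · exact Or.inr ⟨h1, hv⟩

omit [Finite k] in
/-- A transcendental element lies in the maximal ideal of some place. -/
lemma exists_place_lt_one {f : F} (hf : Transcendental k f) :
    ∃ v : Place k F, v.ring.valuation f < 1 := by
  set s : Set F := Set.range (algebraMap k F) with hs
  have hnot : f⁻¹ ∉ (integralClosure (Subring.closure s) F).toSubring := by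
    intro hcon
    have h1 : IsIntegral (Subring.closure s) f⁻¹ := hcon
    have hcl : ∀ x ∈ Subring.closure s, x ∈ (algebraMap k F).range := by
      intro x hx
      have : Subring.closure s ≤ (algebraMap k F).range := by
        rw [Subring.closure_le]
        rintro _ ⟨a, rfl⟩
        exact ⟨a, rfl⟩
      exact this hx
    have h2 : IsAlgebraic k f⁻¹ := by
      obtain ⟨P, hP, hP0⟩ := h1
      have hlift : P.map (algebraMap (Subring.closure s) F) ∈
          Polynomial.lifts (algebraMap k F) := by
        rw [Polynomial.lifts_iff_coeff_lifts]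
        intro n
        rw [Polynomial.coeff_map]
        exact hcl _ (P.coeff n).2
      obtain ⟨Q, hQ⟩ := hlift
      have hQ' : Q.map (algebraMap k F) = P.map (algebraMap (Subring.closure s) F) := hQ
      refine ⟨Q, ?_, ?_⟩
      · rintro rfl
        rw [Polynomial.map_zero] at hQ'
        exact (hP.map (algebraMap (Subring.closure s) F)).ne_zero hQ'.symm
      · rw [Polynomial.aeval_def, Polynomial.eval₂_eq_eval_map, hQ', Polynomial.eval_map]
        exact hP0
    apply hf
    have := h2.inv
    rwa [inv_inv] at this
  rw [← iInf_valuationSubring_superset, Subring.mem_iInf] at hnot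
  push Not at hnot
  obtain ⟨⟨V, hV⟩, hfV⟩ := hnot
  have hfV' : f⁻¹ ∉ V := hfV
  refine ⟨⟨V, fun a => hV ⟨a, rfl⟩, ?_⟩, ?_⟩
  · rintro rfl
    exact hfV' (ValuationSubring.mem_top _)
  · have h3 : ¬ V.valuation f⁻¹ ≤ 1 := by
      rwa [ValuationSubring.valuation_le_one_iff]
    rw [not_le, map_inv₀] at h3
    exact (one_lt_inv_iff₀.1 h3).2

/-- There are infinitely many places. -/
theorem infinite_place (h : IsCurveFunctionField k F) : Infinite (Place k F) := by
  classical
  by_contra hcon
  rw [not_infinite_iff_finite] at hcon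
  have : Fintype (Place k F) := Fintype.ofFinite _
  obtain ⟨t, _, _, ht, _⟩ := exists_two_models h
  have hcard : ∀ v : Place k F, 1 < Nat.card v.κ := by
    intro v
    have := (card_residue' h v).1
    exact Finite.one_lt_card
  let Q : Polynomial k := Polynomial.X * ∏ v : Place k F, (Polynomial.X ^ Nat.card v.κ - Polynomial.X)
  have hmon : ∀ v : Place k F, (Polynomial.X ^ Nat.card v.κ - Polynomial.X : Polynomial k).Monic := by
    intro v
    apply Polynomial.monic_X_pow_sub
    rw [Polynomial.degree_X]
    exact_mod_cast hcard v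
  have hprod : (∏ v : Place k F, (Polynomial.X ^ Nat.card v.κ - Polynomial.X : Polynomial k)).Monic :=
    Polynomial.monic_prod_of_monic _ _ fun v _ => hmon v
  have hQ : Q.Monic := Polynomial.monic_X.mul hprod
  have hQdeg : 0 < Q.natDegree := by
    rw [Polynomial.monic_X.natDegree_mul hprod, Polynomial.natDegree_X]
    omega
  set f : F := 1 + Polynomial.aeval t Q with hf
  have hftr : Transcendental k f := by
    have e : f = Polynomial.aeval t (1 + Q) := by simp [hf]
    rw [e]
    have hdeg : 0 < (1 + Q).natDegree := by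
      have : (1 : Polynomial k) = Polynomial.C 1 := by simp
      rw [this, Polynomial.natDegree_C_add]
      exact hQdeg
    have hne : (1 + Q) ≠ 0 := by
      intro h0
      rw [h0, Polynomial.natDegree_zero] at hdeg
      exact lt_irrefl _ hdeg
    exact ht.aeval _ hdeg.ne' (mem_nonZeroDivisors_of_ne_zero
      (Polynomial.leadingCoeff_ne_zero.2 hne))
  obtain ⟨v, hv⟩ := exists_place_lt_one hftr
  have htv : t ∈ v.ring := by
    let φ : k →+* v.ring := (algebraMap k F).codRestrict v.ring.toSubring v.const_mem
    have hfm : f ∈ v.ring := (ValuationSubring.valuation_le_one_iff _ _).1 hv.le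
    let g : v.ring := ⟨f, hfm⟩ - 1
    have hint : IsIntegral v.ring t := by
      refine ⟨Q.map φ - Polynomial.C g, ?_, ?_⟩
      · apply (hQ.map φ).sub_of_left
        refine lt_of_le_of_lt Polynomial.degree_C_le ?_
        rw [Polynomial.degree_map_eq_of_leadingCoeff_ne_zero]
        · exact Polynomial.natDegree_pos_iff_degree_pos.1 hQdeg
        · rw [hQ.leadingCoeff, map_one]
          exact one_ne_zero
      · rw [Polynomial.eval₂_sub, Polynomial.eval₂_map, Polynomial.eval₂_C]
        have e1 : (algebraMap v.ring F).comp φ = algebraMap k F := rfl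
        have e2 : algebraMap v.ring F g = f - 1 := rfl
        rw [e1, e2, ← Polynomial.aeval_def, hf]
        ring
    obtain ⟨y, hy⟩ := (IsIntegrallyClosed.isIntegral_iff (R := v.ring) (K := F)).1 hint
    rw [← hy]
    exact y.2
  have hvQ : v.ring.valuation (Polynomial.aeval t Q) < 1 := by
    have hκ := (card_residue' h v).1
    have : Fintype v.κ := Fintype.ofFinite _
    have e1 : (Polynomial.aeval t Q : F) =
        (t ^ Nat.card v.κ - t) * (t * ∏ w ∈ Finset.univ.erase v, (t ^ Nat.card w.κ - t)) := by
      simp only [Q, map_mul, Polynomial.aeval_X, map_prod, map_sub, map_pow]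
      rw [← Finset.mul_prod_erase Finset.univ _ (Finset.mem_univ v)]
      ring
    have h1 : v.ring.valuation (t ^ Nat.card v.κ - t) < 1 := by
      have h2 : IsLocalRing.residue v.ring ((⟨t, htv⟩ : v.ring) ^ Nat.card v.κ - ⟨t, htv⟩) = 0 := by
        rw [map_sub, map_pow, sub_eq_zero, Nat.card_eq_fintype_card]
        exact FiniteField.pow_card _
      rw [residue_eq_zero_iff] at h2
      exact h2
    have h3 : t * ∏ w ∈ Finset.univ.erase v, (t ^ Nat.card w.κ - t) ∈ v.ring := by
      refine v.ring.mul_mem _ _ htv ?_
      refine prod_mem fun w _ => ?_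
      exact sub_mem (pow_mem htv _) htv
    rw [e1, map_mul]
    have h4 := (ValuationSubring.valuation_le_one_iff _ _).2 h3
    calc v.ring.valuation (t ^ Nat.card v.κ - t) *
          v.ring.valuation (t * ∏ w ∈ Finset.univ.erase v, (t ^ Nat.card w.κ - t))
        ≤ v.ring.valuation (t ^ Nat.card v.κ - t) * 1 := mul_le_mul_right h4 _
      _ < 1 := by rwa [mul_one]
  have hone : v.ring.valuation (1 : F) < 1 := by
    have e : (1 : F) = f - Polynomial.aeval t Q := by rw [hf]; ring
    rw [e]
    exact (Valuation.map_sub _ _ _).trans_lt (max_lt hv hvQ)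
  rw [map_one] at hone
  exact lt_irrefl _ hone

end Pool.Agent.H707R3
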