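import Mathlib
import Pool.Agent.KS6_3.ZL.H707R3.TowerL
import Pool.Agent.KS6_3.ZL.H387R3.ZT.Final3

/-!
# Weil's theorem for the characters of a `ℤ_p`-tower

`L(χ, s)` is a polynomial with constant coefficient `1` for all characters `χ` of large order.
-/

set_option autoImplicit false

open PowerSeries

namespace Pool.Agent.H707R3

theorem Lfun_poly {p : ℕ} [Fact p.Prime] {k F E : Type} [Field k] [Finite k] [CharP k p]
    [Field F] [Algebra k F] [Field E] [Algebra F E] [Algebra k E] [IsScalarTower k F E]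
    (h : IsZpTower k F E p) :
    ∃ N : ℕ, ∀ n, N ≤ n → ∀ χ : (E ≃ₐ[F] E) →* ℂ_[p]ˣ, orderOf χ = p ^ n →
      ∃ A : Multiset ℂ_[p], Lfun k χ = (A.map fun α => 1 - C α * X).prod := by
  obtain ⟨N, hN⟩ := Pool.Agent.H387R3.ZT.taskF2 p k F E h
  obtain ⟨K0, hK0⟩ := Pool.Agent.H387R3.ZT.exists_layer h 0
  obtain ⟨A0, hA0⟩ := Pool.Agent.H387R3.ZT.exists_roots h K0 0 hK0
  obtain ⟨K', A', hNm, -, -⟩ := Pool.Agent.H387R3.ZT.exists_family h 0 K0 hK0 A0 hA0
  exact ⟨N, fun n hn χ hχ =>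
    Pool.Agent.H387R3.ZT.weil p k F E h n χ hχ (hN K' A' hNm n χ hn hχ)⟩

end Pool.Agent.H707R3
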